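import Pool.Agent.Helper43.Fr.Goals

/-!
Packet SQF of MP_c866d3_nt: the truncated series is, up to the two singular points, a square.
-/

open Polynomial

namespace Pool.Agent.Helper43.Fr.PkSqf

open Pool.Agent.Helper43.Fr

section

variable {p : ℕ} [Fact p.Prime] {K : Type} [Field K] [CharP K p]

theorem F1_map : F1 K p = (F1 (ZMod p) p).map (ZMod.castHom (dvd_refl p) K) := by
  unfold F1
  rw [Polynomial.map_sum]
  apply Finset.sum_congr rfl
  intro n _
  rw [Polynomial.map_monomial]
  simp

theorem F1_coeff_zero (hp : 3 < p) : (F1 K p).coeff 0 = 1 := by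
  unfold F1
  rw [Polynomial.finsetSum_coeff]
  rw [Finset.sum_eq_single 0]
  · simp [aa, franel]
  · intro b _ hb
    rw [Polynomial.coeff_monomial, if_neg hb]
  · intro h
    exact absurd (Finset.mem_range.2 (by omega)) h

theorem natCast_ne {m : ℕ} (hm : ¬ p ∣ m) : (m : K) ≠ 0 := by
  intro h
  exact hm ((CharP.cast_eq_zero_iff K p m).1 h)

theorem two_ne (hp : 3 < p) : (2 : K) ≠ 0 := by
  have : ((2 : ℕ) : K) ≠ 0 := natCast_ne (p := p) (fun h => by
    have := Nat.le_of_dvd (by norm_num) h; omega)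
  exact_mod_cast this

theorem three_ne (hp : 3 < p) : (3 : K) ≠ 0 := by
  have : ((3 : ℕ) : K) ≠ 0 := natCast_ne (p := p) (fun h => by
    have := Nat.le_of_dvd (by norm_num) h; omega)
  exact_mod_cast this

theorem DD_factor (r : K) : DD r = (1 - 32 * r) * (1 + 4 * r) := by
  unfold DD; ring

theorem DD_zero_iff (hp : 3 < p) (r : K) : DD r = 0 ↔ r = (32 : K)⁻¹ ∨ r = -(4 : K)⁻¹ := by
  have h2 : (2 : K) ≠ 0 := two_ne (p := p) hp
  have h32 : (32 : K) ≠ 0 := by
    have : (32 : K) = 2 ^ 5 := by norm_num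
    rw [this]; exact pow_ne_zero _ h2
  have h4 : (4 : K) ≠ 0 := by
    have : (4 : K) = 2 ^ 2 := by norm_num
    rw [this]; exact pow_ne_zero _ h2
  rw [DD_factor, mul_eq_zero]
  constructor
  · rintro (h | h)
    · left
      apply eq_inv_of_mul_eq_one_left
      linear_combination -h
    · right
      rw [eq_neg_iff_add_eq_zero, ← mul_left_inj' h4, add_mul, inv_mul_cancel₀ h4]
      linear_combination h
  · rintro (h | h)
    · left; rw [h, mul_inv_cancel₀ h32, sub_self]
    · right; rw [h, mul_neg, mul_inv_cancel₀ h4]; ring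

theorem distinct (hp : 3 < p) : (32 : K)⁻¹ ≠ -(4 : K)⁻¹ := by
  have h2 : (2 : K) ≠ 0 := two_ne (p := p) hp
  have h3 : (3 : K) ≠ 0 := three_ne (p := p) hp
  have h32 : (32 : K) ≠ 0 := by
    have : (32 : K) = 2 ^ 5 := by norm_num
    rw [this]; exact pow_ne_zero _ h2
  have h4 : (4 : K) ≠ 0 := by
    have : (4 : K) = 2 ^ 2 := by norm_num
    rw [this]; exact pow_ne_zero _ h2
  intro h
  have h1 : (36 : K) = 0 := by
    have h5 : (32 : K)⁻¹ * (32 * 4) = -(4 : K)⁻¹ * (32 * 4) := by rw [h]
    have h6 : (32 : K)⁻¹ * (32 * 4) = 4 := by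
      rw [← mul_assoc, inv_mul_cancel₀ h32, one_mul]
    have h7 : -(4 : K)⁻¹ * (32 * 4) = -32 := by
      have : -(4 : K)⁻¹ * (32 * 4) = -(((4 : K)⁻¹ * 4) * 32) := by ring
      rw [this, inv_mul_cancel₀ h4, one_mul]
    rw [h6, h7] at h5
    linear_combination h5
  have : (36 : K) = 2 ^ 2 * 3 ^ 2 := by norm_num
  rw [this] at h1
  exact mul_ne_zero (pow_ne_zero _ h2) (pow_ne_zero _ h3) h1

theorem root_transfer (a : ZMod p) (b : K) (hab : ZMod.castHom (dvd_refl p) K a = b) :
    (F1 K p).eval b = 0 ↔ (F1 (ZMod p) p).eval a = 0 := by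
  rw [F1_map (p := p) (K := K), ← hab, Polynomial.eval_map_apply, map_eq_zero]

end

theorem sqf (hmul : G_MUL) : G_SQF := by
  classical
  intro p _ hp K _ _ _
  set f := F1 K p with hf
  have hf0 : f.coeff 0 = 1 := F1_coeff_zero hp
  have hfne : f ≠ 0 := by
    intro h; rw [h] at hf0; simp at hf0
  have hrne : ∀ r ∈ f.roots, r ≠ 0 := by
    intro r hr h0
    rw [Polynomial.mem_roots hfne, Polynomial.IsRoot.def, h0, ← Polynomial.coeff_zero_eq_eval_zero,
      hf0] at hr
    exact one_ne_zero hr
  -- product formula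
  have hprod : f = (f.roots.map (fun r => (1 - C r⁻¹ * X : K[X]))).prod := by
    have h1 := (IsAlgClosed.splits f).eq_prod_roots
    have h2 : ∀ s : Multiset K, (∀ r ∈ s, r ≠ 0) →
        (s.map (fun r => (X - C r : K[X]))).prod =
          C ((s.map (fun r => -r)).prod) * (s.map (fun r => (1 - C r⁻¹ * X : K[X]))).prod := by
      intro s
      induction s using Multiset.induction_on with
      | empty => simp
      | cons a s ih =>
        intro hs
        have ha : a ≠ 0 := hs a (Multiset.mem_cons_self a s)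
        rw [Multiset.map_cons, Multiset.prod_cons, ih (fun r hr => hs r (Multiset.mem_cons_of_mem hr)),
          Multiset.map_cons, Multiset.prod_cons, Multiset.map_cons, Multiset.prod_cons, C_mul]
        have h3 : (X - C a : K[X]) = C (-a) * (1 - C a⁻¹ * X) := by
          rw [mul_sub, mul_one, ← mul_assoc, ← C_mul, neg_mul, mul_inv_cancel₀ ha]
          simp only [map_neg, map_one]
          ring
        rw [h3]; ring
    rw [h2 f.roots hrne, ← mul_assoc, ← C_mul] at h1
    have h4 : f.leadingCoeff * (f.roots.map (fun r => -r)).prod = 1 := by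
      have h5 := congrArg (fun g : K[X] => g.eval 0) h1
      simp only [eval_mul, eval_C] at h5
      rw [← Polynomial.coeff_zero_eq_eval_zero, hf0] at h5
      have h6 : ((f.roots.map (fun r => (1 - C r⁻¹ * X : K[X]))).prod).eval 0 = 1 := by
        rw [Polynomial.eval_multiset_prod, Multiset.map_map]
        apply Multiset.prod_eq_one
        intro y hy
        rw [Multiset.mem_map] at hy
        obtain ⟨r, _, rfl⟩ := hy
        simp
      rw [h6, mul_one] at h5
      exact h5.symm
    rw [h4, C_1, one_mul] at h1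
    exact h1
  have hcount1 : ∀ r ∈ f.roots, DD r = 0 → f.roots.count r = 1 := by
    intro r hr hD
    have hr' : f.eval r = 0 := (Polynomial.mem_roots hfne).1 hr
    have h1 := (hmul p hp K r hr').2 hD
    have h2 : 0 < f.roots.count r := Multiset.count_pos.2 hr
    rw [Polynomial.count_roots] at h2 ⊢
    by_contra h3
    have h4 : 1 < f.rootMultiplicity r := by omega
    have h5 := Polynomial.isRoot_iterate_derivative_of_lt_rootMultiplicity h4
    exact h1 h5
  have hcount2 : ∀ r ∈ f.roots, DD r ≠ 0 → f.roots.count r = 2 := by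
    intro r hr hD
    have hr' : f.eval r = 0 := (Polynomial.mem_roots hfne).1 hr
    obtain ⟨h1, h2⟩ := (hmul p hp K r hr').1 hD
    rw [Polynomial.count_roots]
    have h3 : 1 < f.rootMultiplicity r := by
      rw [Polynomial.one_lt_rootMultiplicity_iff_isRoot hfne]
      exact ⟨hr', h1⟩
    by_contra h4
    have h5 : 2 < f.rootMultiplicity r := by omega
    have h6 := Polynomial.isRoot_iterate_derivative_of_lt_rootMultiplicity h5
    exact h2 h6
  set S := f.roots.toFinset with hS
  set P : K[X] := ∏ r ∈ S.filter (fun r => DD r ≠ 0), (1 - C r⁻¹ * X) with hP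
  have hsplit : f = (∏ r ∈ S.filter (fun r => DD r = 0), (1 - C r⁻¹ * X)) * P ^ 2 := by
    conv_lhs => rw [hprod]
    rw [Finset.prod_multiset_map_count, ← hS, ← Finset.prod_filter_mul_prod_filter_not S
      (fun r => DD r = 0), hP, ← Finset.prod_pow]
    congr 1
    · apply Finset.prod_congr rfl
      intro r hr
      rw [Finset.mem_filter] at hr
      rw [hcount1 r (Multiset.mem_toFinset.1 hr.1) hr.2, pow_one]
    · apply Finset.prod_congr rfl
      intro r hr
      rw [Finset.mem_filter] at hr
      rw [hcount2 r (Multiset.mem_toFinset.1 hr.1) hr.2]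
  have hsing : (∏ r ∈ S.filter (fun r => DD r = 0), (1 - C r⁻¹ * X : K[X])) =
      (1 - 32 * X) ^ (if f.eval (32 : K)⁻¹ = 0 then 1 else 0) *
      (1 + 4 * X) ^ (if f.eval (-(4 : K)⁻¹) = 0 then 1 else 0) := by
    have hset : S.filter (fun r => DD r = 0) =
        (if f.eval (32 : K)⁻¹ = 0 then {(32 : K)⁻¹} else ∅) ∪
        (if f.eval (-(4 : K)⁻¹) = 0 then {-(4 : K)⁻¹} else ∅) := by
      ext r
      rw [Finset.mem_filter, Finset.mem_union, hS, Multiset.mem_toFinset,
        Polynomial.mem_roots hfne, DD_zero_iff (p := p) hp, Polynomial.IsRoot.def]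
      constructor
      · rintro ⟨h1, h2 | h2⟩
        · left; rw [← h2, if_pos h1, Finset.mem_singleton]
        · right; rw [← h2, if_pos h1, Finset.mem_singleton]
      · rintro (h | h)
        · by_cases h1 : f.eval (32 : K)⁻¹ = 0
          · rw [if_pos h1, Finset.mem_singleton] at h
            rw [h]; exact ⟨h1, Or.inl rfl⟩
          · rw [if_neg h1] at h; simp at h
        · by_cases h1 : f.eval (-(4 : K)⁻¹) = 0
          · rw [if_pos h1, Finset.mem_singleton] at h
            rw [h]; exact ⟨h1, Or.inr rfl⟩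
          · rw [if_neg h1] at h; simp at h
    have hdisj : Disjoint (if f.eval (32 : K)⁻¹ = 0 then ({(32 : K)⁻¹} : Finset K) else ∅)
        (if f.eval (-(4 : K)⁻¹) = 0 then {-(4 : K)⁻¹} else ∅) := by
      split_ifs <;> simp [distinct (p := p) hp]
    rw [hset, Finset.prod_union hdisj]
    have c32 : (C 32 : K[X]) = 32 := map_ofNat C 32
    have c4 : (C 4 : K[X]) = 4 := map_ofNat C 4
    congr 1
    · split_ifs
      · simp [c32]
      · simp
    · split_ifs
      · simp [c4]
      · simp
  refine ⟨_, _, P, ?_, ?_, ?_, rfl, rfl⟩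
  · rw [hsplit, hsing]
    have e1 : (f.eval (32 : K)⁻¹ = 0) ↔ (F1 (ZMod p) p).eval ((32 : ZMod p)⁻¹) = 0 :=
      root_transfer (p := p) _ _ (by rw [map_inv₀, map_ofNat])
    have e2 : (f.eval (-(4 : K)⁻¹) = 0) ↔ (F1 (ZMod p) p).eval (-(4 : ZMod p)⁻¹) = 0 :=
      root_transfer (p := p) _ _ (by rw [map_neg, map_inv₀, map_ofNat])
    simp only [e1, e2]
  · rw [Polynomial.coeff_zero_eq_eval_zero, hP, Polynomial.eval_prod]
    apply Finset.prod_eq_one
    intro r _
    simp
  · intro r hr
    have hPeq : P = C (∏ s ∈ S.filter (fun r => DD r ≠ 0), (-s⁻¹)) *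
        ∏ s ∈ S.filter (fun r => DD r ≠ 0), (X - C s) := by
      rw [hP, map_prod, ← Finset.prod_mul_distrib]
      apply Finset.prod_congr rfl
      intro s hs
      rw [Finset.mem_filter, hS, Multiset.mem_toFinset] at hs
      have hs0 := hrne s hs.1
      rw [mul_sub, ← C_mul, neg_mul, inv_mul_cancel₀ hs0]
      simp only [map_neg, map_one]
      ring
    have hc : (∏ s ∈ S.filter (fun r => DD r ≠ 0), (-s⁻¹)) ≠ 0 := by
      rw [Finset.prod_ne_zero_iff]
      intro s hs
      rw [Finset.mem_filter, hS, Multiset.mem_toFinset] at hs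
      exact neg_ne_zero.2 (inv_ne_zero (hrne s hs.1))
    have hsep : (∏ s ∈ S.filter (fun r => DD r ≠ 0), (X - C s)).Separable :=
      separable_prod_X_sub_C_iff'.2 (fun x _ y _ h => h)
    have hsep' : P.Separable := by
      rw [hPeq]
      exact Polynomial.Separable.unit_mul (Polynomial.isUnit_C.2 (IsUnit.mk0 _ hc)) hsep
    have := hsep'.eval₂_derivative_ne_zero (RingHom.id K) (x := r) (by simpa using hr)
    simpa using this

end Pool.Agent.Helper43.Fr.PkSqf
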